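import Pool.Agent.Helper72.NI.Tools
import Pool.Agent.Helper72.NI.Emb

/-!
# NI-TRACE: traces
-/

set_option autoImplicit false

namespace Pool.Agent.Helper72.NI

open MvPolynomial

section forms

variable {E : Type} [Field E] {N : ℕ}

/-- Values of forms over `K` at `x`. -/
def FVal (K : Subfield E) (x : Fin (N + 1) → E) (z : E) : Prop :=
  ∃ (e : ℕ) (H : MvPolynomial (Fin (N + 1)) K), H.IsHomogeneous e ∧ aeval x H = z

theorem FVal.mul {K : Subfield E} {x : Fin (N + 1) → E} {z w : E} (hz : FVal K x z)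
    (hw : FVal K x w) : FVal K x (z * w) := by
  obtain ⟨e, H, h1, rfl⟩ := hz
  obtain ⟨e', H', h1', rfl⟩ := hw
  exact ⟨e + e', H * H', h1.mul h1', map_mul _ _ _⟩

theorem FVal.neg {K : Subfield E} {x : Fin (N + 1) → E} {z : E} (hz : FVal K x z) :
    FVal K x (-z) := by
  obtain ⟨e, H, h1, rfl⟩ := hz
  exact ⟨e, -H, h1.neg, map_neg _ _⟩

theorem FVal.const {K : Subfield E} (x : Fin (N + 1) → E) {a : E} (ha : a ∈ K) :
    FVal K x a :=
  ⟨0, C ⟨a, ha⟩, isHomogeneous_C _ _, by rw [aeval_C]; rfl⟩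

theorem FVal.var (K : Subfield E) (x : Fin (N + 1) → E) (i : Fin (N + 1)) : FVal K x (x i) :=
  ⟨1, X i, isHomogeneous_X _ _, aeval_X _ _⟩

theorem FVal.add {K : Subfield E} {x : Fin (N + 1) → E} {i₀ : Fin (N + 1)} (hx : x i₀ = 1)
    {z w : E} (hz : FVal K x z) (hw : FVal K x w) : FVal K x (z + w) := by
  obtain ⟨e, H, h1, rfl⟩ := hz
  obtain ⟨e', H', h1', rfl⟩ := hw
  refine ⟨e + e', H * X i₀ ^ e' + H' * X i₀ ^ e, ?_, ?_⟩
  · refine (h1.mul ?_).add ?_
    · have h2 := (isHomogeneous_X K i₀).pow e'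
      rwa [one_mul] at h2
    · have h2 := h1'.mul ((isHomogeneous_X K i₀).pow e)
      rwa [one_mul, add_comm e' e] at h2
  · rw [map_add, map_mul, map_mul, map_pow, map_pow, aeval_X, hx, one_pow, one_pow, mul_one,
      mul_one]

theorem exists_quot {K : Subfield E} {x : Fin (N + 1) → E} {i₀ : Fin (N + 1)} (hx : x i₀ = 1)
    {z : E} (hz : z ∈ Subfield.closure ((K : Set E) ∪ Set.range x)) :
    ∃ p q, FVal K x p ∧ FVal K x q ∧ q ≠ 0 ∧ z = p / q := by
  have h1 : FVal K x 1 := FVal.const x (one_mem K)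
  induction hz using Subfield.closure_induction with
  | mem z hz =>
    refine ⟨z, 1, ?_, h1, one_ne_zero, (div_one z).symm⟩
    rcases hz with hz | ⟨i, rfl⟩
    · exact FVal.const x hz
    · exact FVal.var K x i
  | one => exact ⟨1, 1, h1, h1, one_ne_zero, (div_one 1).symm⟩
  | add z w _ _ hz hw =>
    obtain ⟨p, q, hp, hq, hq0, rfl⟩ := hz
    obtain ⟨p', q', hp', hq', hq0', rfl⟩ := hw
    exact ⟨p * q' + q * p', q * q', FVal.add hx (hp.mul hq') (hq.mul hp'), hq.mul hq',
      mul_ne_zero hq0 hq0', div_add_div _ _ hq0 hq0'⟩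
  | neg z _ hz =>
    obtain ⟨p, q, hp, hq, hq0, rfl⟩ := hz
    exact ⟨-p, q, hp.neg, hq, hq0, by rw [neg_div]⟩
  | inv z _ hz =>
    obtain ⟨p, q, hp, hq, hq0, rfl⟩ := hz
    by_cases hp0 : p = 0
    · refine ⟨p, q, hp, hq, hq0, ?_⟩
      rw [hp0]
      simp
    · exact ⟨q, p, hq, hp, hp0, inv_div _ _⟩
  | mul z w _ _ hz hw =>
    obtain ⟨p, q, hp, hq, hq0, rfl⟩ := hz
    obtain ⟨p', q', hp', hq', hq0', rfl⟩ := hw
    exact ⟨p * p', q * q', hp.mul hp', hq.mul hq', mul_ne_zero hq0 hq0', div_mul_div_comm _ _ _ _⟩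

end forms

section

variable {E : Type} [Field E] [CharZero E] {Γ : Type} [LinearOrderedCommGroupWithZero Γ]
  {v : Valuation E Γ} {k K Ω : Subfield E} {t : E} {N d : ℕ}
  {f φ : Fin (N + 1) → MvPolynomial (Fin (N + 1)) E}

theorem FVal.lead (c : Ctx v k K Ω t d f φ) {x y : Fin (N + 1) → E} {i₀ : Fin (N + 1)}
    (hpt : Pt v Ω x y i₀) (hgy : Gen K y) {p : E} (hp : FVal K x p) (hp0 : p ≠ 0) :
    ∃ a ∈ K, ∃ h ∈ Subfield.closure ((k : Set E) ∪ Set.range y), Cl v p (a * h) := by
  classical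
  obtain ⟨e, H, hH, rfl⟩ := hp
  have hH0 : H ≠ 0 := by
    rintro rfl
    exact hp0 (map_zero _)
  obtain ⟨m0, hm0, hmax⟩ := H.support.exists_max_image (fun m => v ((H.coeff m : K) : E))
    (support_nonempty.2 hH0)
  set a : E := ((H.coeff m0 : K) : E) with ha
  have ha0 : a ≠ 0 := by
    intro h0
    exact (mem_support_iff.1 hm0) (Subtype.ext h0)
  have hva : v a ≠ 0 := by
    rw [Ne, map_eq_zero]
    exact ha0
  have hvle : ∀ m, v (((H.coeff m : K) : E) / a) ≤ 1 := by
    intro m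
    rw [map_div₀]
    by_cases hm : m ∈ H.support
    · exact div_le_one_of_le₀ (hmax m hm) zero_le
    · rw [notMem_support_iff.1 hm]
      simp
  have hres : ∀ m, ∃ r ∈ k, v (((H.coeff m : K) : E) / a - r) < 1 ∧ (H.coeff m = 0 → r = 0) := by
    intro m
    by_cases hm : H.coeff m = 0
    · refine ⟨0, zero_mem _, ?_, fun _ => rfl⟩
      rw [hm]
      simp
    · obtain ⟨r, hr, h⟩ := c.resK _ (div_mem (H.coeff m).2 (H.coeff m0).2) (hvle m)
      exact ⟨r, hr, h, fun h0 => absurd h0 hm⟩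
  choose r hrk hr hr0 using hres
  set Q : MvPolynomial (Fin (N + 1)) E := ∑ m ∈ H.support, monomial m (r m) with hQ
  have hQc : ∀ m, Q.coeff m = r m := by
    intro m
    rw [hQ, coeff_sum]
    simp only [coeff_monomial]
    rw [Finset.sum_ite_eq' H.support m]
    split_ifs with hm
    · rfl
    · rw [hr0 m (notMem_support_iff.1 hm)]
  have hQh : Q.IsHomogeneous e := by
    intro m hm
    apply hH
    intro h0
    exact hm (by rw [hQc, hr0 m h0])
  set P : MvPolynomial (Fin (N + 1)) E := C a⁻¹ * map K.subtype H with hP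
  have hPc : ∀ m, P.coeff m = ((H.coeff m : K) : E) / a := by
    intro m
    rw [hP, coeff_C_mul, coeff_map, div_eq_inv_mul]
    rfl
  have hPx : eval x P = a⁻¹ * aeval x H := by
    rw [hP, map_mul, eval_C, eval_map, aeval_def]
    rfl
  have hcg : Cg v (eval x P) (eval y Q) := by
    refine Cg.eval (fun m => ?_) fun i => ⟨hpt.int i, c.valΩ _ (hpt.mem i), hpt.red i⟩
    rw [hPc, hQc]
    exact ⟨hvle m, c.valΩ _ (c.kΩ (hrk m)), hr m⟩
  have hQ0 : Q ≠ 0 := by
    intro h0
    have h1 := hr m0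
    have h2 : r m0 = 0 := by
      rw [← hQc, h0, coeff_zero]
    rw [h2, sub_zero, ← ha, div_self ha0, map_one] at h1
    exact lt_irrefl _ h1
  have hy0 : eval y Q ≠ 0 := hgy e Q hQh (fun m => by rw [hQc]; exact c.kK (hrk m)) hQ0
  have hmem : eval y Q ∈ Subfield.closure ((k : Set E) ∪ Set.range y) := by
    refine eval_mem (fun m => ?_) fun i => Subfield.subset_closure (Or.inr ⟨i, rfl⟩)
    rw [hQc]
    exact Subfield.subset_closure (Or.inl (hrk m))
  have hle : Subfield.closure ((k : Set E) ∪ Set.range y) ≤ Ω := by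
    rw [Subfield.closure_le]
    rintro z (hz | ⟨i, rfl⟩)
    · exact c.kΩ hz
    · exact hpt.mem i
  have hv1 : v (eval y Q) = 1 := c.valΩ_eq (hle hmem) hy0
  refine ⟨a, (H.coeff m0).2, eval y Q, hmem, ?_⟩
  unfold Cl
  have h1 : aeval x H - a * eval y Q = a * (eval x P - eval y Q) := by
    rw [hPx, mul_sub, mul_inv_cancel_left₀ ha0]
  rw [h1, Valuation.map_mul v a (eval x P - eval y Q), Valuation.map_mul v a (eval y Q), hv1,
    mul_one]
  calc v a * v (eval x P - eval y Q) < v a * 1 :=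
        mul_lt_mul_of_pos_left hcg.lt (zero_lt_iff.2 hva)
    _ = v a := mul_one _

/-- (GA) -/
theorem ga (c : Ctx v k K Ω t d f φ) {x y : Fin (N + 1) → E} {i₀ : Fin (N + 1)}
    (hpt : Pt v Ω x y i₀) (hgy : Gen K y) {z : E}
    (hz : z ∈ Subfield.closure ((K : Set E) ∪ Set.range x)) (hz0 : z ≠ 0) :
    ∃ a ∈ K, ∃ h ∈ Subfield.closure ((k : Set E) ∪ Set.range y), Cl v z (a * h) := by
  obtain ⟨p, q, hp, hq, hq0, rfl⟩ := exists_quot hpt.x1 hz
  have hp0 : p ≠ 0 := by
    rintro rfl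
    exact hz0 (zero_div _)
  obtain ⟨a, ha, h, hh, h1⟩ := hp.lead c hpt hgy hp0
  obtain ⟨a', ha', h', hh', h1'⟩ := hq.lead c hpt hgy hq0
  refine ⟨a / a', div_mem ha ha', h / h', div_mem hh hh', ?_⟩
  rw [div_mul_div_comm]
  exact h1.div h1'

omit [CharZero E] in
theorem v_msum (g : E → E) (s : Multiset E) (h : ∀ r ∈ s, v (g r) < 1) :
    v ((s.map g).sum) < 1 := by
  induction s using Multiset.induction_on with
  | empty =>
    rw [Multiset.map_zero, Multiset.sum_zero, map_zero]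
    exact zero_lt_one
  | cons a s ih =>
    rw [Multiset.map_cons, Multiset.sum_cons]
    exact lt_of_le_of_lt (v.map_add _ _) (max_lt (h a (Multiset.mem_cons_self _ _))
      (ih fun r hr => h r (Multiset.mem_cons_of_mem hr)))

omit [CharZero E] in
theorem msum_eq (a b : E) (s : Multiset E) :
    (s.map fun r => (r - a) / b - 1).sum = (s.sum - s.card * a) / b - s.card := by
  induction s using Multiset.induction_on with
  | empty => simp
  | cons r s ih =>
    rw [Multiset.map_cons, Multiset.sum_cons, ih, Multiset.sum_cons, Multiset.card_cons]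
    push_cast
    ring

/-- TRACE. -/
theorem trace_step (c : Ctx v k K Ω t d f φ) {x y : Fin (N + 1) → E} {i₀ : Fin (N + 1)}
    (hpt : Pt v Ω x y i₀) (hgx : Gen K x) (hgy : Gen K y)
    (hx : ∀ i, x i ∈ acl ((k : Set E) ∪ Set.range y) ⊔ K)
    (hy : ∀ i, y i ∈ Subfield.closure ((K : Set E) ∪ Set.range x)) (i : Fin (N + 1)) :
    x i ∈ Subfield.closure ((K : Set E) ∪ Set.range y) := by
  have _ := hgx
  have hE := c.algE
  have hΩ := c.algΩ
  set F : Subfield E := Subfield.closure ((K : Set E) ∪ Set.range y) with hF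
  set κ : Subfield E := acl ((k : Set E) ∪ Set.range y) with hκ
  have hKF : K ≤ F := fun z hz => Subfield.subset_closure (Or.inl hz)
  have hyF : ∀ j, y j ∈ F := fun j => Subfield.subset_closure (Or.inr ⟨j, rfl⟩)
  have hκF : κ ≤ acl (F : Set E) := by
    refine acl_mono ?_
    rintro z (hz | ⟨j, rfl⟩)
    · exact hKF (c.kK hz)
    · exact hyF j
  have hKZ : K ≤ acl (F : Set E) := hKF.trans (le_acl F)
  have hcl : Subfield.closure ((k : Set E) ∪ Set.range y) ≤ κ := by
    rw [Subfield.closure_le]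
    exact subset_acl _
  have hcF : Subfield.closure ((k : Set E) ∪ Set.range y) ≤ F := by
    rw [Subfield.closure_le]
    rintro z (hz | ⟨j, rfl⟩)
    · exact hKF (c.kK hz)
    · exact hyF j
  have hκΩ : κ ≤ Ω := by
    refine acl_le_self ?_
    rintro z (hz | ⟨j, rfl⟩)
    · exact c.kΩ hz
    · exact hpt.mem j
  have hFκK : F ≤ κ ⊔ K := by
    rw [hF, Subfield.closure_le]
    rintro z (hz | ⟨j, rfl⟩)
    · exact (le_sup_right : K ≤ κ ⊔ K) hz
    · exact (le_sup_left : κ ≤ κ ⊔ K) (subset_acl _ (Or.inr ⟨j, rfl⟩))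
  have hxZ : x i ∈ acl (F : Set E) := (sup_le hκF hKZ) (hx i)
  have halg : IsAlgebraic F (x i) := mem_acl.1 hxZ
  have hint := halg.isIntegral
  set q := minpoly F (x i) with hq
  set n := q.natDegree with hn
  have hn0 : 0 < n := minpoly.natDegree_pos hint
  have hnE : (n : E) ≠ 0 := by exact_mod_cast hn0.ne'
  have hnF : (n : E) ∈ F := natCast_mem F n
  set s := (q.map (algebraMap F E)).roots with hs
  have hsplit := IsAlgClosed.splits (q.map (algebraMap F E))
  have hcard : s.card = n := by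
    have h1 := hsplit.natDegree_eq_card_roots
    rw [Polynomial.natDegree_map] at h1
    exact h1.symm
  have hsum : (q.nextCoeff : E) = -s.sum := by
    have h1 := hsplit.nextCoeff_eq_neg_sum_roots_of_monic ((minpoly.monic hint).map _)
    rw [Polynomial.nextCoeff_map_eq] at h1
    exact h1
  set a : E := s.sum / n with ha
  have haF : a ∈ F := by
    have h1 : s.sum = -(q.nextCoeff : E) := by rw [hsum, neg_neg]
    rw [ha, h1]
    exact div_mem (neg_mem q.nextCoeff.2) hnF
  by_cases hz0 : x i - a = 0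
  · rw [sub_eq_zero.1 hz0]
    exact haF
  exfalso
  have hFx : F ≤ Subfield.closure ((K : Set E) ∪ Set.range x) := by
    rw [hF, Subfield.closure_le]
    rintro z (hz | ⟨j, rfl⟩)
    · exact Subfield.subset_closure (Or.inl hz)
    · exact hy j
  obtain ⟨b, hb, h, hh, hCl⟩ := ga c hpt hgy
    (sub_mem (Subfield.subset_closure (Or.inr ⟨i, rfl⟩)) (hFx haF)) hz0
  have hbh0 : b * h ≠ 0 := hCl.ne'
  have hbhF : b * h ∈ F := mul_mem (hKF hb) (hcF hh)
  set w : E := (x i - a) / (b * h) with hw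
  have hw1 : v (w - 1) < 1 := by
    have h1 : w - 1 = (x i - a - b * h) / (b * h) := by
      rw [hw, sub_div (x i - a) (b * h) (b * h), div_self hbh0]
    rw [h1, map_div₀]
    exact (div_lt_one₀ (zero_lt_iff.2 hCl.pos)).2 hCl
  have hvw : v w ≤ 1 := by
    have h1 : w = (w - 1) + 1 := by ring
    rw [h1]
    exact (v.map_add _ _).trans (max_le hw1.le (by rw [map_one]))
  have hwκK : w ∈ κ ⊔ K := div_mem (sub_mem (hx i) (hFκK haF)) (hFκK hbhF)
  have hwZ : w ∈ acl (F : Set E) := (sup_le hκF hKZ) hwκK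
  have hbhZ : b * h ∈ acl (F : Set E) := le_acl F hbhF
  have haZ : a ∈ acl (F : Set E) := le_acl F haF
  have key : ∀ r ∈ s, v ((r - a) / (b * h) - 1) < 1 := by
    intro r hr
    have hr' : Polynomial.aeval r (minpoly F (x i)) = 0 := by
      have h1 := Polynomial.isRoot_of_mem_roots hr
      rw [Polynomial.IsRoot.def, Polynomial.eval_map] at h1
      exact h1
    obtain ⟨ι, hι, hιx⟩ := exists_conj F hxZ hr'
    obtain ⟨c', hc', h1, h2⟩ := up (v := v) (Z := acl (F : Set E)) (k := k) (κ := κ) (K := K)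
      c.kK (fun z hz => subset_acl _ (Or.inl hz)) hKZ hκF ι (fun a ha => hι _ (hKF ha)) c.resK
      (fun b hb => c.valΩ _ (hκΩ hb)) (fun b hb => by
        have h3 : ι b ∈ κ := by
          refine acl_hom (Z := acl (F : Set E)) ι (S := (k : Set E) ∪ Set.range y)
            (T := (k : Set E) ∪ Set.range y) (fun z hz => hκF (subset_acl _ hz)) ?_ b.2 hb
          intro z hz
          have h4 : z ∈ F := by
            rcases hz with hz | ⟨j, rfl⟩
            · exact hKF (c.kK hz)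
            · exact hyF j
          rw [hι z h4]
          exact subset_acl _ hz
        exact c.valΩ _ (hκΩ h3)) (z := ⟨w, hwZ⟩) hwκK hvw
    have h3 : (c' : E) = 1 := by
      by_contra hne
      have h4 : (c' : E) - 1 ∈ Ω := sub_mem (hκΩ hc') (one_mem _)
      have h5 := c.valΩ_eq h4 (sub_ne_zero.2 hne)
      have h6 : (c' : E) - 1 = (w - 1) - (w - c') := by ring
      rw [h6] at h5
      exact (lt_of_le_of_lt (Valuation.map_sub v _ _) (max_lt hw1 h1)).ne h5
    have h4 : c' = 1 := Subtype.ext h3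
    have h5 : ι ⟨w, hwZ⟩ = (r - a) / (b * h) := by
      have h6 : (⟨w, hwZ⟩ : acl (F : Set E)) = (⟨x i, hxZ⟩ - ⟨a, haZ⟩) / ⟨b * h, hbhZ⟩ := rfl
      rw [h6, map_div₀, map_sub, hιx, hι a haF, hι (b * h) hbhF]
    rw [h4, map_one, h5] at h2
    exact h2
  have h7 := v_msum (v := v) (fun r => (r - a) / (b * h) - 1) s key
  rw [msum_eq, hcard, ha, mul_div_cancel₀ _ hnE, sub_self, zero_div, zero_sub,
    Valuation.map_neg] at h7
  exact h7.ne (c.valΩ_eq (natCast_mem Ω n) hnE)

end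

end Pool.Agent.Helper72.NI
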